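import Pool.Agent.Y132.SD.NoAll

/-!
# Surjections onto the free metabelian group which keep any `k`, but not any `k + 1` elements

Let `G` be the free metabelian group of rank two. A family of homomorphisms is `k`-discriminating if
any `k` nontrivial elements survive under one of them simultaneously; it is separating if it is
`1`-discriminating and discriminating if it is `k`-discriminating for all `k`.

For each `k ≥ 1` there is a countable metabelian group `T` in which all centralizers of nontrivial
elements are abelian such that the surjections `T → G` are `k`-discriminating, but no family of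
surjections `T → G` is `(k + 1)`-discriminating. (The case `k = 1` answers the question of the
problem negatively.)

More generally each finite simplicial complex is the pattern of simultaneous survival of some
nontrivial elements of such a group `T`: these elements are indexed by the vertices, and the
elements of a set of vertices survive simultaneously under a surjection `T → G` if and only if the
set is a face.

The group `T` is generated by affine maps `x`, `y`, `z` of a module over the group ring of `ℤ ^ 3` and
translations `e j n` with `2 ^ n e j n = ∏ (z x ^ (- a j i) - 1) e j 0`, the product over `i < n`. The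
element `e j 0` survives under a surjection onto `G` if and only if some `z x ^ (- a j i)` is in its
kernel. The sequences `a j` enumerate the sets of natural numbers `l` such that `j` is in the face
with the number `l`, where each face has infinitely many numbers.
-/

set_option autoImplicit false

namespace Pool.Agent.Results.MP_2b96c2_al.SurvivalPatterns

/-- The free metabelian group of rank two. -/
abbrev G : Type := FreeGroup (Fin 2) ⧸ derivedSeries (FreeGroup (Fin 2)) 2

/-- The set `F` of homomorphisms is `k`-discriminating: any `k` nontrivial elements survive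
simultaneously under one of them. -/
def IsKDiscriminating {T : Type} [Group T] (k : ℕ) (F : Set (T →* G)) : Prop :=
  ∀ S : Finset T, S.card ≤ k → (∀ a ∈ S, a ≠ 1) → ∃ f ∈ F, ∀ a ∈ S, f a ≠ 1

/-- `T` is countable, metabelian, and the centralizers of the nontrivial elements are abelian. -/
structure IsGood (T : Type) [Group T] : Prop where
  countable : Countable T
  metabelian : derivedSeries T 2 = ⊥
  centralizer : ∀ t : T, t ≠ 1 → ∀ a ∈ Subgroup.centralizer {t}, ∀ b ∈ Subgroup.centralizer {t},
    a * b = b * a

/-- `Δ` is the set of the faces of a simplicial complex with the vertices `0, …, n - 1`. -/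
structure IsComplex {n : ℕ} (Δ : Finset (Fin n) → Prop) : Prop where
  empty : Δ ∅
  vertex : ∀ j, Δ {j}
  subset : ∀ A A', A ⊆ A' → Δ A' → Δ A

/-- (1) For each `k ≥ 1` there is a countable metabelian group with abelian centralizers such that
some family of surjections onto the free metabelian group of rank two is `k`-discriminating and none
is `(k + 1)`-discriminating. (2) For each finite simplicial complex `Δ` there is such a group with
elements `e j` indexed by the vertices such that the `e j`, `j ∈ A`, survive simultaneously under a
surjection if and only if `A` is a face, and the surjections are `k`-discriminating if all sets of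
at most `k` vertices are faces. -/
theorem result :
    (∀ k : ℕ, 1 ≤ k → ∃ (T : Type) (_ : Group T), IsGood T ∧
      (∃ F : Set (T →* G), (∀ f ∈ F, Function.Surjective f) ∧ IsKDiscriminating k F) ∧
      ¬ ∃ F : Set (T →* G), (∀ f ∈ F, Function.Surjective f) ∧ IsKDiscriminating (k + 1) F) ∧
    ∀ (n : ℕ) (Δ : Finset (Fin n) → Prop), IsComplex Δ →
      ∃ (T : Type) (_ : Group T) (e : Fin n → T), IsGood T ∧
        (∀ A : Finset (Fin n), (∃ f : T →* G, Function.Surjective f ∧ ∀ j ∈ A, f (e j) ≠ 1) ↔ Δ A) ∧
        ∀ k : ℕ, (∀ A : Finset (Fin n), A.card ≤ k → Δ A) →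
          IsKDiscriminating k {f : T →* G | Function.Surjective f} := by
  have key : ∀ (n : ℕ) (Δ : Finset (Fin n) → Prop), IsComplex Δ →
      ∃ (T : Type) (_ : Group T) (e : Fin n → T), IsGood T ∧
        (∀ A : Finset (Fin n), (∃ f : T →* G, Function.Surjective f ∧ ∀ j ∈ A, f (e j) ≠ 1) ↔ Δ A) ∧
        ∀ k : ℕ, (∀ A : Finset (Fin n), A.card ≤ k → Δ A) →
          IsKDiscriminating k {f : T →* G | Function.Surjective f} := by
    intro n Δ hΔ
    obtain ⟨B, hB, hBΔ⟩ := Pool.Agent.Y132.SD.exists_faces Δ hΔ.empty
    refine ⟨Pool.Agent.Y132.SD.Grp B, inferInstance,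
      fun j => ⟨Pool.Agent.Y132.SD.ge (Pool.Agent.Y132.SD.seq B) j 0,
        Pool.Agent.Y132.SD.ge_mem _ j 0⟩, ⟨?_, ?_, ?_⟩,
      fun A => Pool.Agent.Y132.SD.pattern hB hBΔ hΔ.vertex hΔ.empty hΔ.subset A,
      fun k hk S hcard hS => ?_⟩
    · have := Pool.Agent.Y132.SD.countable_aff (J := Fin n)
      exact Subtype.countable
    · exact Pool.Agent.Results.MP_2b96c2_al.SeparatingNotDiscriminating.derived_two_of_injective
        (Subgroup.subtype _) (Subgroup.subtype_injective _)
    · intro t ht a ha b hb
      rw [Subgroup.mem_centralizer_singleton_iff] at ha hb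
      apply Subtype.ext
      apply Pool.Agent.Results.MP_2b96c2_al.SeparatingNotDiscriminating.Aff.comm_trans
        (t := (t : Pool.Agent.Y132.SD.AffJ (Fin n))) Pool.Agent.Y132.SD.VJ_torsion_free
      · intro h
        exact ht (Subtype.ext h)
      · exact (congrArg Subtype.val ha).symm
      · exact (congrArg Subtype.val hb).symm
    · exact Pool.Agent.Y132.SD.survive_all hBΔ hΔ.vertex hk S hS hcard
  refine ⟨fun k hk => ?_, key⟩
  obtain ⟨T, _, e, hT, hpat, hdis⟩ := key (k + 1) (fun A => A.card ≤ k)
    ⟨by simp, fun j => by simpa using hk, fun A A' h h' => (Finset.card_le_card h).trans h'⟩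
  refine ⟨T, inferInstance, hT, ⟨_, fun f hf => hf, hdis k fun A hA => hA⟩, ?_⟩
  rintro ⟨F, hF, hdisc⟩
  classical
  have hne : ∀ j, e j ≠ 1 := by
    intro j h
    obtain ⟨f, -, h1⟩ := (hpat {j}).2 (by simpa using hk)
    exact h1 j (Finset.mem_singleton_self j) (by rw [h, map_one])
  obtain ⟨f, hf, h1⟩ := hdisc (Finset.univ.image e)
    (Finset.card_image_le.trans (by rw [Finset.card_univ, Fintype.card_fin]))
    (by
      intro a ha
      obtain ⟨j, -, rfl⟩ := Finset.mem_image.1 ha
      exact hne j)
  have h2 := (hpat Finset.univ).1 ⟨f, hF f hf, fun j _ =>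
    h1 _ (Finset.mem_image_of_mem e (Finset.mem_univ j))⟩
  rw [Finset.card_univ, Fintype.card_fin] at h2
  omega

end Pool.Agent.Results.MP_2b96c2_al.SurvivalPatterns
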